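import Mathlib

namespace Pool.Agent.H.MP_aa1cdf_co

open Finset Matrix

/-- bits of the redundancy part of a self-dual binary code of length 22 and distance 6 -/
def bit (i j : ℕ) : ℕ :=
  [234, 1797, 662, 1021, 1373, 247, 1432, 986, 1972, 339, 1140].getD i 0 / 2 ^ j % 2

/-- basis matrix -/
def G : Matrix (Fin 22) (Fin 22) ℤ := fun i j =>
  if i.1 < 11 then (if j.1 < 11 then (if i = j then 1 else 0) else (bit i (j - 11) : ℤ))
  else if i = j then 2 else 0

/-- minimal vectors -/
def V : Matrix (Fin 22) (Fin 22) ℤ := fun i j =>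
  if i.1 < 11 then (if j.1 < 11 then (if i = j then 2 else 0) else -(bit i (j - 11) : ℤ))
  else if i = j then 1 else 0

theorem VG : ∀ i k, ∑ j, V i j * G j k = if i = k then 2 else 0 := by decide +kernel

theorem GV : ∀ i k, ∑ j, G i j * V j k = if i = k then 2 else 0 := by decide +kernel

theorem VV : ∀ j k, (∑ i, V i j * V i k) % 2 = 0 := by decide +kernel

/-- rows modulo two as bit masks -/
def R (i : Fin 22) : ℕ := if i.1 < 11 then 2 ^ i.1 + 2048 *
  [234, 1797, 662, 1021, 1373, 247, 1432, 986, 1972, 339, 1140].getD i 0 else 0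

theorem GR : ∀ i j, G i j % 2 = ((R i).testBit j).toNat := by decide +kernel

/-- weight of a mask -/
def wt (w : ℕ) : ℕ := ((List.finRange 22).map (fun j : Fin 22 => (w.testBit j).toNat)).sum

/-- all code words have weight zero or at least six -/
def chk : List (Fin 22) → ℕ → Bool
  | [], w => wt w == 0 || decide (6 ≤ wt w)
  | i :: l, w => chk l w && (R i == 0 || chk l (w ^^^ R i))

theorem chk_true : chk (List.finRange 22) 0 = true := by decide +kernel

theorem chk_sound (x : Fin 22 → ℤ) (l : List (Fin 22)) (w : ℕ) (h : chk l w = true) :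
    ∃ v, (wt v = 0 ∨ 6 ≤ wt v) ∧ ∀ j : Fin 22,
      ((l.map (fun i => x i * G i j)).sum + (w.testBit j).toNat) % 2 = (v.testBit j).toNat := by
  induction l generalizing w with
  | nil =>
    refine ⟨w, by simpa [chk] using h, fun j => ?_⟩
    cases w.testBit j <;> simp
  | cons i l ih =>
    simp only [chk, Bool.and_eq_true, Bool.or_eq_true, beq_iff_eq] at h
    by_cases hx : x i % 2 = 0 ∨ R i = 0
    · obtain ⟨v, h1, h2⟩ := ih w h.1
      refine ⟨v, h1, fun j => ?_⟩
      have h3 := h2 j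
      have h4 : (x i * G i j) % 2 = 0 := by
        rcases hx with hx | hx
        · rw [Int.mul_emod, hx]; simp
        · rw [Int.mul_emod, GR, hx]; simp
      rw [List.map_cons, List.sum_cons]
      omega
    · push Not at hx
      obtain ⟨v, h1, h2⟩ := ih _ (h.2.resolve_left hx.2)
      refine ⟨v, h1, fun j => ?_⟩
      have h3 := h2 j
      have h4 : (x i * G i j) % 2 = ((R i).testBit j).toNat := by
        rw [Int.mul_emod, show x i % 2 = 1 by omega, one_mul, Int.emod_emod_of_dvd _ dvd_rfl, GR]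
      rw [List.map_cons, List.sum_cons]
      rw [Nat.testBit_xor] at h3
      revert h3 h4
      cases w.testBit j <;> cases (R i).testBit j <;> simp <;> omega

theorem VG' : V * G = 2 • 1 := by
  ext i k
  rw [mul_apply, VG]
  simp [one_apply]

theorem GV' : G * V = 2 • 1 := by
  ext i k
  rw [mul_apply, GV]
  simp [one_apply]

theorem parity (x : Fin 22 → ℤ) : (∀ j, (x ᵥ* G) j % 2 = 0) ∨ 6 ≤ ∑ j, (x ᵥ* G) j ^ 2 := by
  obtain ⟨v, h1, h2⟩ := chk_sound x _ _ chk_true
  have key : ∀ j, (x ᵥ* G) j % 2 = (v.testBit j).toNat := by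
    intro j
    rw [← h2 j, ← Fin.sum_univ_def]
    simp [vecMul, dotProduct]
  unfold wt at h1
  rw [← Fin.sum_univ_def] at h1
  rcases h1 with h | h
  · left
    intro j
    rw [key, sum_eq_zero_iff.1 h j (mem_univ j)]
    rfl
  · right
    have h2 : (6 : ℤ) ≤ ∑ j : Fin 22, ((v.testBit j).toNat : ℤ) := by exact_mod_cast h
    refine h2.trans (sum_le_sum fun j _ => ?_)
    rw [← key]
    by_cases h3 : (x ᵥ* G) j = 0
    · simp [h3]
    · have : 0 < (x ᵥ* G) j ^ 2 := by positivity
      omega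

theorem back (x : Fin 22 → ℤ) (u : Fin 22 → ℤ) (h : ∀ j, (x ᵥ* G) j = 2 * u j) : x = u ᵥ* V := by
  have h1 : x ᵥ* G = (2 : ℤ) • u := funext h
  have h2 := congrArg (· ᵥ* V) h1
  simp only [vecMul_vecMul, GV', smul_vecMul, vecMul_smul, vecMul_one] at h2
  funext j
  have := congrFun h2 j
  simp only [Pi.smul_apply, nsmul_eq_mul, smul_eq_mul] at this
  omega

theorem short (x : Fin 22 → ℤ) (hx : x ≠ 0) :
    4 < ∑ j, (x ᵥ* G) j ^ 2 ∨ ∃ i, x = V i ∨ x = -V i := by
  rcases parity x with h | h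
  · obtain ⟨u, hu⟩ : ∃ u : Fin 22 → ℤ, ∀ j, (x ᵥ* G) j = 2 * u j :=
      ⟨fun j => (x ᵥ* G) j / 2, fun j => by have := h j; beta_reduce; omega⟩
    have hb := back x u hu
    have hu0 : u ≠ 0 := fun h0 => hx (by rw [hb, h0, zero_vecMul])
    obtain ⟨i, hi⟩ := Function.ne_iff.1 hu0
    have e : ∑ j, (x ᵥ* G) j ^ 2 = 4 * (u i ^ 2 + ∑ j ∈ univ.erase i, u j ^ 2) := by
      rw [add_sum_erase _ (fun j => u j ^ 2) (mem_univ i), mul_sum]
      exact sum_congr rfl fun j _ => by rw [hu]; ring
    have n0 : 0 ≤ ∑ j ∈ univ.erase i, u j ^ 2 := sum_nonneg fun j _ => sq_nonneg _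
    have n1 : 0 < u i ^ 2 := by
      have : u i ≠ 0 := hi
      positivity
    by_cases hc : 4 < ∑ j, (x ᵥ* G) j ^ 2
    · exact Or.inl hc
    · right
      have n2 : ∑ j ∈ univ.erase i, u j ^ 2 = 0 := by omega
      have n3 : u i ^ 2 = 1 := by omega
      have n4 : ∀ j, j ≠ i → u j = 0 := fun j hj => pow_eq_zero_iff (two_ne_zero) |>.1
        ((sum_eq_zero_iff_of_nonneg fun j _ => sq_nonneg _).1 n2 j (by simp [hj]))
      have n5 : u = Pi.single i (u i) := by
        funext j
        by_cases hj : j = i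
        · subst hj; simp
        · simp [hj, n4 j hj]
      refine ⟨i, ?_⟩
      rw [hb, n5, single_vecMul]
      rcases sq_eq_one_iff.1 n3 with h5 | h5
      · left; rw [h5]; simp [Matrix.row]
      · right; rw [h5]; simp [Matrix.row]
  · left
    omega

theorem normV (i : Fin 22) : ∑ j, (V i ᵥ* G) j ^ 2 = 4 := by
  have : ∀ j, (V i ᵥ* G) j ^ 2 = if i = j then 4 else 0 := by
    intro j
    change (∑ k, V i k * G k j) ^ 2 = _
    rw [VG]
    split_ifs <;> simp
  simp [this]

end Pool.Agent.H.MP_aa1cdf_co
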